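import Pool.Graph.R_pool_sql_team_seeded_64922ed1.Results.MP_cc72b1_an.LocallyRoelckePrecompact
import Pool.Agent.H282.Stab.Main
import Pool.Agent.H282.Stab.NoOrd
import Pool.Agent.H282.Stab.Hilb
import Pool.Agent.H282.Stab.Pairs

/-!
# Banach-Mazur rotation problem: stable norms with locally Roelcke precompact isometry group

Let `E` be a separable real Banach space with transitive norm which is stable in the sense of
Krivine and Maurey. If the group of isometries is locally Roelcke precompact for the strong operator
topology (for instance if `E` is separably categorical), or just if for some `r > 0` the pairs of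
unit vectors at distance at most `r` form a totally bounded space modulo isometries, then `E` is
linearly isometric to a Hilbert space.

Proof outline.

1. By earlier results of the library `E` is isomorphic to a Hilbert space (`LocNull.lean`), and the
   squared norm has second order expansions in all directions at all points (`HessMain.lean`).
2. `Pairs.lean`: by compactness of the pair orbits the expansion at a unit vector `x` is uniform in
   the direction: up to small errors every unit vector is the image, under isometries arbitrarily
   close to fixing `x`, of one of finitely many unit vectors.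
3. By `NoOrd.lean`, `Em.lean`, `Main.lean`, `Fix.lean` (see the result `StableNorms`) some
   equivalent inner product is invariant under the isometry group.
4. By transitivity its square norm is a multiple of the squared norm.
-/

set_option autoImplicit false

namespace Pool.Agent.Results.MP_cc72b1_an.StableCategorical

open Filter Topology Asymptotics Pool.Agent.H282.Stab

theorem result :
    ∀ (E : Type) [NormedAddCommGroup E] [NormedSpace ℝ E] [CompleteSpace E]
      [TopologicalSpace.SeparableSpace E],
      -- the norm is transitive
      (∀ x y : E, ‖x‖ = 1 → ‖y‖ = 1 → ∃ T : E ≃ₗᵢ[ℝ] E, T x = y) →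
      -- the isometry group is locally Roelcke precompact, or the pair orbits are locally compact
      (LocRoelcke E ∨ LocPairOrbits E) →
      -- the norm is stable
      StableNorm E →
      ∃ (H : Type) (_ : NormedAddCommGroup H) (_ : InnerProductSpace ℝ H) (_ : CompleteSpace H),
        Nonempty (E ≃ₗᵢ[ℝ] H) := by
  intro E _ _ _ _ htr hloc hst
  by_cases hE : ∃ x : E, ‖x‖ = 1
  · obtain ⟨x, hx⟩ := hE
    have hlp : ∃ r : ℝ, 0 < r ∧ Pool.Agent.X192.BM.LocalPairs E r := by
      rcases hloc with h | h
      · exact Pool.Agent.X192.BM.localPairs_of_lrp htr hx h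
      · exact h
    obtain ⟨H, i1, i2, i3, ⟨Φ⟩⟩ :=
      (Pool.Agent.Results.MP_cc72b1_an.LocallyRoelckePrecompact.result E htr
        (Or.inr (Or.inl hlp))).1
    obtain ⟨r, hr, hP⟩ := hlp
    obtain ⟨A, c, hc, hlow, hexp⟩ := uniform_expansion htr (pairCompact_of_local hr hP) Φ hx
    obtain ⟨A', hA'⟩ : ∃ A' : E →L[ℝ] E →L[ℝ] ℝ, ∀ v w, A' v w = (A v w + A w v) / 2 := by
      refine ⟨(1 / 2 : ℝ) • (A + A.flip), fun v w => ?_⟩
      simp only [_root_.smul_apply, _root_.add_apply, ContinuousLinearMap.flip_apply, smul_eq_mul]
      ring
    have hdiag : ∀ w, A' w w = A w w := fun w => by rw [hA']; ring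
    obtain ⟨B, hB1, hB2, hB3⟩ := exists_fixed (c := c) A' (fun v w => by rw [hA', hA']; ring)
      (fun v => by rw [hdiag]; exact hlow v) (fun d hd ε hε => by
        refine noOrder_of_stable hst x A' ?_ d hd hε
        simp only [hdiag]
        exact hexp)
    obtain ⟨κ, hκ, hBκ⟩ := norm_sq_of_convexTransitive B hc hB1 hB2 hB3
      (fun x y hx hy => subset_closure (subset_convexHull ℝ _ (htr x y hx hy)))
    obtain ⟨H', j1, j2, j3, Ψ, hΨ⟩ := hilbert_of_form (κ⁻¹ • B) (c := 1) one_pos
      (fun v w => by simp only [_root_.smul_apply, hB1 v w]) (fun v => by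
        simp only [_root_.smul_apply, hBκ, smul_eq_mul]
        rw [inv_mul_cancel_left₀ hκ.ne', one_mul])
    have hn : ∀ v, ‖Ψ v‖ = ‖v‖ := by
      intro v
      have h1 := hΨ v
      simp only [_root_.smul_apply, hBκ, smul_eq_mul] at h1
      rw [inv_mul_cancel_left₀ hκ.ne'] at h1
      exact (pow_left_inj₀ (norm_nonneg _) (norm_nonneg _) two_ne_zero).1 h1
    exact ⟨H', j1, j2, j3, ⟨⟨Ψ.toLinearEquiv, hn⟩⟩⟩
  · exact Pool.Agent.Results.MP_cc72b1_an.LocallyRoelckePrecompact.zero_case E hE

end Pool.Agent.Results.MP_cc72b1_an.StableCategorical
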