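import Pool.Agent.H282.Stab.Main
import Pool.Agent.H282.Stab.NoOrd
import Pool.Agent.H282.Stab.Hilb
import Pool.Agent.H282.Stab.Coer

/-!
# Banach-Mazur rotation problem: stable norms with one point of twice differentiability

Let `E` be a separable real Banach space whose norm is stable in the sense of Krivine and Maurey,
and suppose that at one point `x` the square of the norm has a second order expansion
`‖x + w‖ ^ 2 + ‖x - w‖ ^ 2 = 2 ‖x‖ ^ 2 + 2 A (w, w) + o(‖w‖ ^ 2)` (Fréchet sense), where `A` may be
degenerate. If the norm is convex-transitive (for instance transitive, or almost transitive) and `E`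
has an equivalent norm with modulus of convexity of power type 2 (for instance if `E` is isomorphic
to a Hilbert space) then the norm is given by an inner product. If `A` is nondegenerate, then there
is, without any transitivity, an equivalent inner product on `E` which is invariant under all
surjective linear isometries of `E`, and it gives the norm if the norm is convex-transitive.

Proof outline (files `Pool/Agent/H282/Stab/*`).

1. `NoOrd.lean`: the second difference quotients of the squared norm are uniformly close to the
   functions `(T, v) ↦ A (T⁻¹ v, T⁻¹ v)`; so by stability these functions have no infinite order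
   pattern in `(T, v)`.
2. `Em.lean`: an Erdős-Makkai argument: a bounded family of functions on a countable set without
   order patterns has a pointwise closure which is separable for the uniform distance.
3. `Main.lean`: the pointwise closure of the orbit of `A` under the isometry group is compact; take
   a minimal closed invariant subset `M`. By 2. and the Baire category theorem some nonempty
   relatively open subset of `M` has small diameter for the norm of forms, and by minimality
   finitely many translates of it cover `M`. So `M` is totally bounded in norm.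
4. `Fix.lean`: hence the isometry group has a fixed point in the norm closed convex hull of `M`
   (Kakutani's theorem), which is an invariant inner product.
5. `Hilb.lean`: for a convex-transitive norm the invariant inner product is a multiple of the
   squared norm.
6. `Coer.lean`: if the norm is convex-transitive and `q` is an equivalent norm with modulus of
   convexity of power type 2 then `A` is nondegenerate: apply the inequality for `q` at an isometric
   image of `x` at which `q` is almost maximal.
-/

set_option autoImplicit false

namespace Pool.Agent.Results.MP_cc72b1_an.StableNorms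

open Filter Topology Asymptotics Pool.Agent.H282.Stab

/-- Every unit vector is in the closed convex hull of the isometry orbit of every unit vector. -/
def ConvexTransitive (E : Type) [NormedAddCommGroup E] [NormedSpace ℝ E] : Prop :=
  ∀ x y : E, ‖x‖ = 1 → ‖y‖ = 1 →
    y ∈ closure (convexHull ℝ {z : E | ∃ T : E ≃ₗᵢ[ℝ] E, T x = z})

/-- There is an equivalent norm `q` with modulus of convexity of power type 2. -/
def TwoConvexifiable (E : Type) [NormedAddCommGroup E] [NormedSpace ℝ E] : Prop :=
  ∃ (q : Seminorm ℝ E) (a b c : ℝ), 0 < a ∧ 0 < c ∧ (∀ v, a * ‖v‖ ≤ q v) ∧ (∀ v, q v ≤ b * ‖v‖) ∧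
    ∀ v w, 2 * q v ^ 2 + 2 * c * q w ^ 2 ≤ q (v + w) ^ 2 + q (v - w) ^ 2

theorem result :
    ∀ (E : Type) [NormedAddCommGroup E] [NormedSpace ℝ E] [CompleteSpace E]
      [TopologicalSpace.SeparableSpace E],
      -- the norm is stable
      StableNorm E →
      -- at one point the squared norm has a second order expansion
      ∀ (x : E) (A : E →L[ℝ] E →L[ℝ] ℝ),
      ((fun w : E => ‖x + w‖ ^ 2 + ‖x - w‖ ^ 2 - 2 * ‖x‖ ^ 2 - 2 * A w w)
        =o[𝓝 0] fun w : E => ‖w‖ ^ 2) →
      -- which is nondegenerate, or the norm is convex-transitive and `E` has an equivalent norm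
      -- with modulus of convexity of power type 2
      ((∃ c : ℝ, 0 < c ∧ ∀ w, c * ‖w‖ ^ 2 ≤ A w w) ∨ (ConvexTransitive E ∧ TwoConvexifiable E)) →
      ∃ (H : Type) (_ : NormedAddCommGroup H) (_ : InnerProductSpace ℝ H) (_ : CompleteSpace H)
        (Φ : E ≃L[ℝ] H),
        -- all isometries preserve the equivalent inner product
        (∀ (T : E ≃ₗᵢ[ℝ] E) (v : E), ‖Φ (T v)‖ = ‖Φ v‖) ∧
        -- and it gives the norm if the norm is convex-transitive
        (ConvexTransitive E → ∀ v, ‖Φ v‖ = ‖v‖) := by
  intro E _ _ _ _ hst x A hexp hcase
  obtain ⟨c, hc, hlow⟩ : ∃ c : ℝ, 0 < c ∧ ∀ w, c * ‖w‖ ^ 2 ≤ A w w := by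
    rcases hcase with h | ⟨hct, q, a, b, c, ha, hc, hqa, hqb, hq⟩
    · exact h
    · exact coercive_of_convex hexp hct ha hc hqa hqb hq
  obtain ⟨A', hA'⟩ : ∃ A' : E →L[ℝ] E →L[ℝ] ℝ, ∀ v w, A' v w = (A v w + A w v) / 2 := by
    refine ⟨(1 / 2 : ℝ) • (A + A.flip), fun v w => ?_⟩
    simp only [_root_.smul_apply, _root_.add_apply, ContinuousLinearMap.flip_apply, smul_eq_mul]
    ring
  have hdiag : ∀ w, A' w w = A w w := fun w => by rw [hA']; ring
  obtain ⟨B, hB1, hB2, hB3⟩ := exists_fixed (c := c) A' (fun v w => by rw [hA', hA']; ring)
    (fun v => by rw [hdiag]; exact hlow v) (fun d hd ε hε => by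
      refine noOrder_of_stable hst x A' ?_ d hd hε
      simp only [hdiag]
      exact hexp)
  by_cases hct : ConvexTransitive E
  · obtain ⟨κ, hκ, hBκ⟩ := norm_sq_of_convexTransitive B hc hB1 hB2 hB3 hct
    obtain ⟨H, i1, i2, i3, Φ, hΦ⟩ := hilbert_of_form (κ⁻¹ • B) (c := 1) one_pos
      (fun v w => by simp only [_root_.smul_apply, hB1 v w]) (fun v => by
        simp only [_root_.smul_apply, hBκ, smul_eq_mul]
        rw [inv_mul_cancel_left₀ hκ.ne', one_mul])
    have hn : ∀ v, ‖Φ v‖ = ‖v‖ := by
      intro v
      have h1 := hΦ v
      simp only [_root_.smul_apply, hBκ, smul_eq_mul] at h1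
      rw [inv_mul_cancel_left₀ hκ.ne'] at h1
      exact (pow_left_inj₀ (norm_nonneg _) (norm_nonneg _) two_ne_zero).1 h1
    exact ⟨H, i1, i2, i3, Φ, fun T v => by rw [hn, hn, T.norm_map], fun _ => hn⟩
  · obtain ⟨H, i1, i2, i3, Φ, hΦ⟩ := hilbert_of_form B hc hB1 hB2
    refine ⟨H, i1, i2, i3, Φ, fun T v => ?_, fun h => absurd h hct⟩
    refine (pow_left_inj₀ (norm_nonneg _) (norm_nonneg _) two_ne_zero).1 ?_
    rw [hΦ, hΦ, hB3]

end Pool.Agent.Results.MP_cc72b1_an.StableNorms
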